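import Pool.Agent.H95.DCM.Final

open MeasureTheory H95.DCM

namespace Pool.Agent.Results.MP_269591_pr.CriticalDiameter

/-- Critical directed configuration model: under assumptions 1-4 the sequence
`n^{-1/3} Diam(G_n(ν))` is tight if and only if the law `ν` is nondegenerate (vertices with
`D⁻ ≥ 1, D⁺ ≥ 2` and vertices with `D⁺ ≥ 1, D⁻ ≥ 2` have positive probability). In the
degenerate case the diameter is at least of order `√n` with high probability. Both cases occur, and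
the random digraph is well defined with probability tending to one. -/
theorem result :
    (∀ ν : Measure (ℕ × ℕ), Assump ν →
      (TightDiam ν ↔ Nondeg ν) ∧
      (¬ Nondeg ν → ∀ ε : ℝ, 0 < ε → ∃ b : ℝ, 0 < b ∧ ∃ n₀ : ℕ, ∀ n ≥ n₀,
        1 - ε ≤ graphProb ν n {E | b * √(n : ℝ) ≤ (diamE E : ℝ)}) ∧
      (∀ ε : ℝ, 0 < ε → ∃ n₀ : ℕ, ∀ n ≥ n₀, IsProbabilityMeasure (seqLaw ν n) ∧
        (seqLaw ν n).real {d | simpleDigraphs n d = ∅} ≤ ε)) ∧
    (∃ ν : Measure (ℕ × ℕ), Assump ν ∧ Nondeg ν) ∧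
    (∃ ν : Measure (ℕ × ℕ), Assump ν ∧ ¬ Nondeg ν) := by
  refine ⟨fun ν hν => ⟨⟨fun ht => ?_, tight_of_nondeg ν hν⟩, fun hd ε hε => deg_sqrt ν hν hd ε hε,
    fun ε hε => exists_simple ν hν ε hε⟩, exists_nondegenerate, exists_degenerate⟩
  by_contra hd
  exact not_tight_of_deg ν hν hd ht

end Pool.Agent.Results.MP_269591_pr.CriticalDiameter
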